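import Pool.Agent.H970Z.QG.Defs
import Pool.Agent.H970Z.QG.Main

namespace Pool.Agent.Results.MP_4bd73f_an.AnswerYes

open Pool.Agent.H970Z.QG

/-- Let `X` be a real or complex Banach space isomorphic to a uniformly convex Banach space `Y`, and
let `(x, xs)` be a quasi-greedy basis of `X`.  Then for some finite `r ≥ 1` the coefficient map
sends `X` boundedly into the Lorentz sequence space `d_{1,r}(w_l)`. -/
theorem result {𝕜 : Type*} [RCLike 𝕜]
    {X : Type*} [NormedAddCommGroup X] [NormedSpace 𝕜 X] [CompleteSpace X]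
    {Y : Type*} [NormedAddCommGroup Y] [NormedSpace 𝕜 Y] [CompleteSpace Y] [UniformConvexSpace Y]
    (T : X ≃L[𝕜] Y) (x : ℕ → X) (xs : ℕ → (X →L[𝕜] 𝕜))
    (hb : IsBasis x xs) (hq : IsQuasiGreedy x xs) :
    ∃ r : ℝ, 1 ≤ r ∧ ∃ C : ℝ, ∀ f : X,
      lorentzNorm (lowerWeight 𝕜 x) r (fun n => xs n f) ≤ ENNReal.ofReal (C * ‖f‖) :=
  main T hb hq

end Pool.Agent.Results.MP_4bd73f_an.AnswerYes
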